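import Mathlib

namespace Pool.Agent.Results.MP_d49c4f_nt.AlmostAllFails

open Finset Filter Topology

/-- The set `D_n` of the nonempty initial sums `d_1`, `d_1 + d_2`, ..., `d_1 + ... + d_k` of the
increasing sequence `1 < d_1 < d_2 < ... < d_k = n` of the divisors of `n` exceeding `1`: the
members are the sums of all divisors `d` of `n` with `1 < d ≤ D`, where `D > 1` runs over the
divisors of `n`. It is empty for `n = 0` and `n = 1`. -/
def initialSums (n : ℕ) : Set ℕ :=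
  {N | ∃ D ∈ n.divisors, 1 < D ∧ N = ∑ d ∈ n.divisors with 1 < d ∧ d ≤ D, d}

/-- `N` is representable if it lies in `D_n` for some `n`. -/
def Representable (N : ℕ) : Prop := ∃ n, N ∈ initialSums n

/-- `f N` is the least `n` with `N ∈ D_n` (for representable `N`). -/
noncomputable def f (N : ℕ) : ℕ := sInf {n | N ∈ initialSums n}

/-- `E` has natural density zero. -/
def DensityZero (E : Set ℕ) : Prop :=
  Tendsto (fun x : ℕ => ((E ∩ Set.Icc 1 x).ncard : ℝ) / x) atTop (𝓝 0)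

/-- Sanity check: `D_1` is empty. -/
lemma initialSums_one : initialSums 1 = ∅ := by
  ext N
  simp only [initialSums, Nat.divisors_one, Finset.mem_singleton, Set.mem_ofPred_eq,
    Set.mem_empty_iff_false, iff_false, not_exists, not_and]
  intro D hD h
  omega

/-- Sanity check: `D_4 = {2, 6}`. -/
lemma initialSums_four : initialSums 4 = {2, 6} := by
  ext N
  have h : (4 : ℕ).divisors = {1, 2, 4} := by decide
  simp [initialSums, h, Finset.filter_insert, Finset.filter_singleton]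

/-- Sanity check: `D_12 = {2, 5, 9, 15, 27}`. -/
lemma initialSums_twelve : initialSums 12 = {2, 5, 9, 15, 27} := by
  ext N
  have h : (12 : ℕ).divisors = {1, 2, 3, 4, 6, 12} := by decide
  simp [initialSums, h, Finset.filter_insert, Finset.filter_singleton]

/-- The weight `S n = ∑_{a ∣ n} 1/√a`. -/
noncomputable def S (n : ℕ) : ℝ := ∑ a ∈ n.divisors, 1 / √(a : ℝ)

lemma S_nonneg (n : ℕ) : 0 ≤ S n := Finset.sum_nonneg fun _ _ => by positivity

/-- Key estimate: if `n ≤ ε N` with `N` the initial sum up to the divisor `D`, then the codivisor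
`n / D` is at most `(ε S n)^2`. -/
lemma codivisor_le {ε : ℝ} {n D N : ℕ} (hD : D ∈ n.divisors) (hD1 : 1 < D)
    (hN : N = ∑ d ∈ n.divisors with 1 < d ∧ d ≤ D, d) (hle : (n : ℝ) ≤ ε * N) :
    ((n / D : ℕ) : ℝ) ≤ (ε * S n) ^ 2 := by
  have hn : n ≠ 0 := (Nat.mem_divisors.mp hD).2
  have hn0 : 0 < n := Nat.pos_of_ne_zero hn
  have hDn : D ∣ n := (Nat.mem_divisors.mp hD).1
  have hD0 : 0 < D := by omega
  set k := n / D with hk
  have hk0 : 0 < k := Nat.div_pos (Nat.le_of_dvd hn0 hDn) hD0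
  have hkR : (0 : ℝ) < k := by exact_mod_cast hk0
  have hsk : 0 < √(k : ℝ) := Real.sqrt_pos.mpr hkR
  have hNpos : 0 < N := by
    rw [hN]
    apply Finset.sum_pos
    · intro d hd
      have := (Finset.mem_filter.mp hd).2.1
      omega
    · exact ⟨D, Finset.mem_filter.mpr ⟨hD, hD1, le_rfl⟩⟩
  have hNR : (0 : ℝ) < N := by exact_mod_cast hNpos
  -- termwise bound
  have h1 : (N : ℝ) ≤ ∑ d ∈ n.divisors, (n : ℝ) / √(k : ℝ) * (1 / √((n / d : ℕ) : ℝ)) := by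
    rw [hN]
    push_cast
    have hstep : (∑ d ∈ n.divisors with 1 < d ∧ d ≤ D, (d : ℝ)) ≤
        ∑ d ∈ n.divisors with 1 < d ∧ d ≤ D,
          (n : ℝ) / √(k : ℝ) * (1 / √((n / d : ℕ) : ℝ)) := by
      apply Finset.sum_le_sum
      intro d hd
      obtain ⟨hdn, hd1, hdD⟩ := Finset.mem_filter.mp hd
      have hdvd : d ∣ n := (Nat.mem_divisors.mp hdn).1
      have hd0 : 0 < d := by omega
      have hkd : k ≤ n / d := Nat.div_le_div_left hdD hd0
      have hnd : (n : ℝ) = d * ((n / d : ℕ) : ℝ) := by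
        rw [← Nat.cast_mul, Nat.mul_div_cancel' hdvd]
      have hpos : (0 : ℝ) < ((n / d : ℕ) : ℝ) := by
        have : 0 < n / d := lt_of_lt_of_le hk0 hkd
        exact_mod_cast this
      have hsp : 0 < √((n / d : ℕ) : ℝ) := Real.sqrt_pos.mpr hpos
      have hsle : √(k : ℝ) ≤ √((n / d : ℕ) : ℝ) := Real.sqrt_le_sqrt (by exact_mod_cast hkd)
      rw [div_mul_div_comm, mul_one, le_div_iff₀ (mul_pos hsk hsp)]
      calc (d : ℝ) * (√(k : ℝ) * √((n / d : ℕ) : ℝ))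
          ≤ d * (√((n / d : ℕ) : ℝ) * √((n / d : ℕ) : ℝ)) := by gcongr
        _ = d * ((n / d : ℕ) : ℝ) := by rw [Real.mul_self_sqrt hpos.le]
        _ = n := hnd.symm
    refine hstep.trans ?_
    apply Finset.sum_le_sum_of_subset_of_nonneg (Finset.filter_subset _ _)
    intro d _ _
    positivity
  have h2 : ∑ d ∈ n.divisors, (n : ℝ) / √(k : ℝ) * (1 / √((n / d : ℕ) : ℝ)) =
      (n : ℝ) / √(k : ℝ) * S n := by
    rw [← Finset.mul_sum]
    congr 1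
    rw [S, ← Nat.sum_div_divisors n (fun d => 1 / √(d : ℝ))]
  rw [h2] at h1
  -- √k ≤ ε S n
  have h3 : √(k : ℝ) ≤ ε * S n := by
    have h4 : (N : ℝ) * √(k : ℝ) ≤ n * S n := by
      rw [div_mul_eq_mul_div, le_div_iff₀ hsk] at h1
      exact h1
    have h5 : (n : ℝ) * S n ≤ ε * N * S n := mul_le_mul_of_nonneg_right hle (S_nonneg n)
    have h6 : (N : ℝ) * √(k : ℝ) ≤ N * (ε * S n) := by linarith
    exact le_of_mul_le_mul_left h6 hNR
  calc (k : ℝ) = √(k : ℝ) ^ 2 := (Real.sq_sqrt hkR.le).symm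
    _ ≤ (ε * S n) ^ 2 := by gcongr

/-- The set of pairs `(n, D)` that may produce an `N ≤ x` with `f N ≤ ε N`. -/
noncomputable def P (ε : ℝ) (M : ℕ) : Finset (Σ _ : ℕ, ℕ) :=
  (Finset.Ioc 0 M).sigma fun n => n.divisors.filter fun D => ((n / D : ℕ) : ℝ) ≤ (ε * S n) ^ 2

lemma card_P_le (ε : ℝ) (M : ℕ) :
    ((P ε M).card : ℝ) ≤ ∑ n ∈ Finset.Ioc 0 M, (ε * S n) ^ 2 := by
  rw [P, Finset.card_sigma]
  push_cast
  apply Finset.sum_le_sum
  intro n hn
  have hn0 : n ≠ 0 := by have := (Finset.mem_Ioc.mp hn).1; omega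
  have hinj : (n.divisors.filter fun D => ((n / D : ℕ) : ℝ) ≤ (ε * S n) ^ 2).card ≤
      (Finset.Ioc 0 ⌊(ε * S n) ^ 2⌋₊).card := by
    apply Finset.card_le_card_of_injOn (fun D => n / D)
    · intro D hD
      obtain ⟨hDn, hDle⟩ := Finset.mem_filter.mp hD
      have hdvd := (Nat.mem_divisors.mp hDn).1
      have hD0 : 0 < D := Nat.pos_of_mem_divisors hDn
      simp only [Finset.coe_Ioc, Set.mem_Ioc]
      exact ⟨Nat.div_pos (Nat.le_of_dvd (Nat.pos_of_ne_zero hn0) hdvd) hD0, Nat.le_floor hDle⟩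
    · intro D hD D' hD' h
      have hdvd := (Nat.mem_divisors.mp (Finset.mem_filter.mp hD).1).1
      have hdvd' := (Nat.mem_divisors.mp (Finset.mem_filter.mp hD').1).1
      simp only at h
      have h1 := Nat.div_mul_cancel hdvd
      have h2 := Nat.div_mul_cancel hdvd'
      have h3 : 0 < n / D := Nat.div_pos (Nat.le_of_dvd (Nat.pos_of_ne_zero hn0) hdvd)
        (Nat.pos_of_mem_divisors (Finset.mem_filter.mp hD).1)
      rw [← h] at h2
      exact Nat.eq_of_mul_eq_mul_left h3 (h1.trans h2.symm)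
  rw [Nat.card_Ioc, Nat.sub_zero] at hinj
  calc (((n.divisors.filter fun D => ((n / D : ℕ) : ℝ) ≤ (ε * S n) ^ 2).card : ℕ) : ℝ)
      ≤ (⌊(ε * S n) ^ 2⌋₊ : ℝ) := by exact_mod_cast hinj
    _ ≤ (ε * S n) ^ 2 := Nat.floor_le (sq_nonneg _)

/-- The weight on triples `(g, a, b)`. -/
noncomputable def u (t : ℕ × ℕ × ℕ) : ℝ := 1 / ((t.1 : ℝ) * √(t.2.1 : ℝ) * √(t.2.2 : ℝ))

lemma u_nonneg (t : ℕ × ℕ × ℕ) : 0 ≤ u t := by unfold u; positivity

lemma S_sq_le {n M : ℕ} (hn : n ∈ Finset.Ioc 0 M) :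
    S n ^ 2 ≤ ∑ t ∈ Finset.Ioc 0 M ×ˢ Finset.Ioc 0 M ×ˢ Finset.Ioc 0 M,
      if t.1 * t.2.1 * t.2.2 ∣ n then u t else 0 := by
  obtain ⟨hn0, hnM⟩ := Finset.mem_Ioc.mp hn
  rw [← Finset.sum_filter, sq, S, Finset.sum_mul_sum, ← Finset.sum_product']
  let i : ℕ × ℕ → ℕ × ℕ × ℕ := fun p => (p.1.gcd p.2, p.1 / p.1.gcd p.2, p.2 / p.1.gcd p.2)
  have hval : ∀ p ∈ n.divisors ×ˢ n.divisors, 1 / √(p.1 : ℝ) * (1 / √(p.2 : ℝ)) = u (i p) := by
    intro p hp
    obtain ⟨h1, h2⟩ := Finset.mem_product.mp hp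
    have ha : 0 < p.1 := Nat.pos_of_mem_divisors h1
    have hg : 0 < p.1.gcd p.2 := Nat.gcd_pos_of_pos_left _ ha
    simp only [i, u]
    have e1 : (p.1 : ℝ) = (p.1.gcd p.2 : ℝ) * ((p.1 / p.1.gcd p.2 : ℕ) : ℝ) := by
      rw [← Nat.cast_mul, Nat.mul_div_cancel' (Nat.gcd_dvd_left _ _)]
    have e2 : (p.2 : ℝ) = (p.1.gcd p.2 : ℝ) * ((p.2 / p.1.gcd p.2 : ℕ) : ℝ) := by
      rw [← Nat.cast_mul, Nat.mul_div_cancel' (Nat.gcd_dvd_right _ _)]
    have hgR : (0 : ℝ) ≤ (p.1.gcd p.2 : ℝ) := by positivity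
    rw [div_mul_div_comm, mul_one]
    congr 1
    conv_lhs => rw [e1, e2]
    rw [Real.sqrt_mul hgR, Real.sqrt_mul hgR]
    calc _ = (√(p.1.gcd p.2 : ℝ) * √(p.1.gcd p.2 : ℝ)) *
        √((p.1 / p.1.gcd p.2 : ℕ) : ℝ) * √((p.2 / p.1.gcd p.2 : ℕ) : ℝ) := by ring
      _ = _ := by rw [Real.mul_self_sqrt hgR]
  rw [Finset.sum_congr rfl hval]
  have hinj : Set.InjOn i (n.divisors ×ˢ n.divisors : Finset (ℕ × ℕ)) := by
    rintro ⟨a, b⟩ - ⟨c, d⟩ - h
    simp only [i, Prod.mk.injEq] at h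
    obtain ⟨h1, h2, h3⟩ := h
    have ea := Nat.div_mul_cancel (Nat.gcd_dvd_left a b)
    have eb := Nat.div_mul_cancel (Nat.gcd_dvd_right a b)
    have ec := Nat.div_mul_cancel (Nat.gcd_dvd_left c d)
    have ed := Nat.div_mul_cancel (Nat.gcd_dvd_right c d)
    rw [h2, h1] at ea
    rw [h3, h1] at eb
    exact Prod.ext (ea.symm.trans ec) (eb.symm.trans ed)
  rw [← Finset.sum_image hinj]
  apply Finset.sum_le_sum_of_subset_of_nonneg
  · intro t ht
    obtain ⟨⟨a, b⟩, hp, rfl⟩ := Finset.mem_image.mp ht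
    obtain ⟨h1, h2⟩ := Finset.mem_product.mp hp
    have ha : 0 < a := Nat.pos_of_mem_divisors h1
    have hb : 0 < b := Nat.pos_of_mem_divisors h2
    have han : a ∣ n := (Nat.mem_divisors.mp h1).1
    have hbn : b ∣ n := (Nat.mem_divisors.mp h2).1
    have hg : 0 < a.gcd b := Nat.gcd_pos_of_pos_left _ ha
    have haM : a ≤ M := (Nat.le_of_dvd hn0 han).trans hnM
    have hbM : b ≤ M := (Nat.le_of_dvd hn0 hbn).trans hnM
    have hga : a.gcd b ≤ a := Nat.gcd_le_left _ ha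
    have hgb : a.gcd b ≤ b := Nat.gcd_le_right _ hb
    simp only [i, Finset.mem_filter, Finset.mem_product, Finset.mem_Ioc]
    refine ⟨⟨⟨hg, hga.trans haM⟩, ⟨Nat.div_pos hga hg, (Nat.div_le_self _ _).trans haM⟩,
      ⟨Nat.div_pos hgb hg, (Nat.div_le_self _ _).trans hbM⟩⟩, ?_⟩
    have : a.gcd b * (a / a.gcd b) * (b / a.gcd b) = a.lcm b := by
      rw [Nat.mul_div_cancel' (Nat.gcd_dvd_left _ _), Nat.lcm, Nat.mul_div_assoc _ (Nat.gcd_dvd_right _ _)]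
    rw [this]
    exact Nat.lcm_dvd han hbn
  · intro t _ _
    exact u_nonneg t

/-- `∑ 1/a^(3/2)`-type constant. -/
noncomputable def c1 : ℝ := ∑' a : ℕ, 1 / (a : ℝ) ^ (3 / 2 : ℝ)

noncomputable def c2 : ℝ := ∑' a : ℕ, 1 / (a : ℝ) ^ (2 : ℕ)

lemma sum_three_half_le (M : ℕ) :
    ∑ a ∈ Finset.Ioc 0 M, 1 / ((a : ℝ) * √(a : ℝ)) ≤ c1 := by
  have hs : Summable fun a : ℕ => 1 / (a : ℝ) ^ (3 / 2 : ℝ) :=
    Real.summable_one_div_nat_rpow.mpr (by norm_num)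
  have heq : ∑ a ∈ Finset.Ioc 0 M, 1 / ((a : ℝ) * √(a : ℝ)) =
      ∑ a ∈ Finset.Ioc 0 M, 1 / (a : ℝ) ^ (3 / 2 : ℝ) := by
    apply Finset.sum_congr rfl
    intro a ha
    have ha0 : (0 : ℝ) < a := by exact_mod_cast (Finset.mem_Ioc.mp ha).1
    congr 1
    rw [Real.sqrt_eq_rpow]
    nth_rewrite 1 [← Real.rpow_one (a : ℝ)]
    rw [← Real.rpow_add ha0]
    norm_num
  rw [heq]
  exact hs.sum_le_tsum _ fun _ _ => by positivity

lemma sum_sq_le (M : ℕ) : ∑ a ∈ Finset.Ioc 0 M, 1 / ((a : ℝ) * a) ≤ c2 := by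
  have hs : Summable fun a : ℕ => 1 / (a : ℝ) ^ (2 : ℕ) :=
    Real.summable_one_div_nat_pow.mpr (by norm_num)
  have heq : ∑ a ∈ Finset.Ioc 0 M, 1 / ((a : ℝ) * a) =
      ∑ a ∈ Finset.Ioc 0 M, 1 / (a : ℝ) ^ (2 : ℕ) := by
    apply Finset.sum_congr rfl
    intro a _
    rw [sq]
  rw [heq]
  exact hs.sum_le_tsum _ fun _ _ => by positivity

lemma c1_nonneg : 0 ≤ c1 := tsum_nonneg fun _ => by positivity

lemma c2_nonneg : 0 ≤ c2 := tsum_nonneg fun _ => by positivity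

/-- The second moment of `S` is bounded. -/
lemma sum_S_sq_le (M : ℕ) : ∑ n ∈ Finset.Ioc 0 M, S n ^ 2 ≤ c2 * c1 * c1 * M := by
  calc ∑ n ∈ Finset.Ioc 0 M, S n ^ 2
      ≤ ∑ n ∈ Finset.Ioc 0 M, ∑ t ∈ Finset.Ioc 0 M ×ˢ Finset.Ioc 0 M ×ˢ Finset.Ioc 0 M,
          (if t.1 * t.2.1 * t.2.2 ∣ n then u t else 0) :=
        Finset.sum_le_sum fun n hn => S_sq_le hn
    _ = ∑ t ∈ Finset.Ioc 0 M ×ˢ Finset.Ioc 0 M ×ˢ Finset.Ioc 0 M,
          ((M / (t.1 * t.2.1 * t.2.2) : ℕ) : ℝ) * u t := by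
        rw [Finset.sum_comm]
        apply Finset.sum_congr rfl
        intro t _
        rw [← Finset.sum_filter, Finset.sum_const, Nat.Ioc_filter_dvd_card_eq_div, nsmul_eq_mul]
    _ ≤ ∑ t ∈ Finset.Ioc 0 M ×ˢ Finset.Ioc 0 M ×ˢ Finset.Ioc 0 M,
          (M : ℝ) * (1 / ((t.1 : ℝ) * t.1) * (1 / ((t.2.1 : ℝ) * √(t.2.1 : ℝ)) *
            (1 / ((t.2.2 : ℝ) * √(t.2.2 : ℝ))))) := by
        apply Finset.sum_le_sum
        intro t _
        have h1 : ((M / (t.1 * t.2.1 * t.2.2) : ℕ) : ℝ) ≤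
            (M : ℝ) / ((t.1 : ℝ) * t.2.1 * t.2.2) := by
          have := @Nat.cast_div_le ℝ _ _ _ M (t.1 * t.2.1 * t.2.2)
          push_cast at this
          exact this
        calc ((M / (t.1 * t.2.1 * t.2.2) : ℕ) : ℝ) * u t
            ≤ (M : ℝ) / ((t.1 : ℝ) * t.2.1 * t.2.2) * u t :=
              mul_le_mul_of_nonneg_right h1 (u_nonneg t)
          _ = _ := by
              unfold u
              simp only [div_eq_mul_inv, mul_inv, one_mul]
              ring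
    _ = (M : ℝ) * ((∑ a ∈ Finset.Ioc 0 M, 1 / ((a : ℝ) * a)) *
          ((∑ a ∈ Finset.Ioc 0 M, 1 / ((a : ℝ) * √(a : ℝ))) *
          (∑ a ∈ Finset.Ioc 0 M, 1 / ((a : ℝ) * √(a : ℝ))))) := by
        rw [← Finset.mul_sum, Finset.sum_product]
        congr 1
        rw [Finset.sum_mul]
        apply Finset.sum_congr rfl
        intro g _
        rw [Finset.sum_mul_sum, Finset.mul_sum, Finset.sum_product]
        apply Finset.sum_congr rfl
        intro a _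
        rw [Finset.mul_sum]
    _ ≤ (M : ℝ) * (c2 * (c1 * c1)) := by
        have hA : 0 ≤ ∑ a ∈ Finset.Ioc 0 M, 1 / ((a : ℝ) * √(a : ℝ)) :=
          Finset.sum_nonneg fun _ _ => by positivity
        gcongr
        · exact c2_nonneg
        · exact sum_sq_le M
        · exact c1_nonneg
        · exact sum_three_half_le M
        · exact sum_three_half_le M
    _ = c2 * c1 * c1 * M := by ring

/-- The constant. -/
noncomputable def C : ℝ := c2 * c1 * c1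

lemma C_nonneg : 0 ≤ C := mul_nonneg (mul_nonneg c2_nonneg c1_nonneg) c1_nonneg

/-- The quantitative bound: the number of `N ≤ x` lying in `D_n` for some `n ≤ ε N` is at most
`C ε^3 x`. -/
theorem card_le {ε : ℝ} (hε : 0 < ε) (x : ℕ) :
    (((Set.Icc 1 x) ∩ {N : ℕ | ∃ n : ℕ, N ∈ initialSums n ∧ (n : ℝ) ≤ ε * N}).ncard : ℝ) ≤
      C * ε ^ 3 * x := by
  classical
  set M := ⌊ε * x⌋₊ with hM
  let F : (Σ _ : ℕ, ℕ) → ℕ := fun p => ∑ d ∈ p.1.divisors with 1 < d ∧ d ≤ p.2, d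
  have hsub : (Set.Icc 1 x) ∩ {N : ℕ | ∃ n : ℕ, N ∈ initialSums n ∧ (n : ℝ) ≤ ε * N} ⊆
      ((P ε M).image F : Finset ℕ) := by
    rintro N ⟨hNx, n, ⟨D, hD, hD1, hN⟩, hle⟩
    rw [Finset.coe_image]
    refine ⟨⟨n, D⟩, ?_, hN.symm⟩
    have hn0 : 0 < n := Nat.pos_of_ne_zero (Nat.mem_divisors.mp hD).2
    refine Finset.mem_coe.mpr (Finset.mem_sigma.mpr ⟨Finset.mem_Ioc.mpr ⟨hn0, ?_⟩,
      Finset.mem_filter.mpr ⟨hD, codivisor_le hD hD1 hN hle⟩⟩)
    apply Nat.le_floor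
    refine hle.trans ?_
    have : (N : ℝ) ≤ x := by exact_mod_cast hNx.2
    gcongr
  have h1 : ((Set.Icc 1 x) ∩
      {N : ℕ | ∃ n : ℕ, N ∈ initialSums n ∧ (n : ℝ) ≤ ε * N}).ncard ≤ (P ε M).card := by
    refine (Set.ncard_le_ncard hsub (Finset.finite_toSet _)).trans ?_
    rw [Set.ncard_coe_finset]
    exact Finset.card_image_le
  calc (((Set.Icc 1 x) ∩
      {N : ℕ | ∃ n : ℕ, N ∈ initialSums n ∧ (n : ℝ) ≤ ε * N}).ncard : ℝ)
      ≤ ((P ε M).card : ℝ) := by exact_mod_cast h1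
    _ ≤ ∑ n ∈ Finset.Ioc 0 M, (ε * S n) ^ 2 := card_P_le ε M
    _ = ε ^ 2 * ∑ n ∈ Finset.Ioc 0 M, S n ^ 2 := by
        rw [Finset.mul_sum]
        exact Finset.sum_congr rfl fun n _ => by ring
    _ ≤ ε ^ 2 * (c2 * c1 * c1 * M) := by
        gcongr
        exact sum_S_sq_le M
    _ ≤ ε ^ 2 * (c2 * c1 * c1 * (ε * x)) := by
        have : (M : ℝ) ≤ ε * x := Nat.floor_le (by positivity)
        have hC := C_nonneg
        unfold C at hC
        gcongr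
    _ = C * ε ^ 3 * x := by unfold C; ring

/-- Q1 is false. -/
theorem result :
    ¬ ∃ E : Set ℕ, DensityZero E ∧ ∀ ε : ℝ, 0 < ε → ∃ N₀ : ℕ, ∀ N : ℕ, N₀ ≤ N → N ∉ E →
      Representable N ∧ (f N : ℝ) ≤ ε * N := by
  rintro ⟨E, hE, h⟩
  -- choose ε with C ε^3 ≤ 1/4
  obtain ⟨ε, hε, hCε⟩ : ∃ ε : ℝ, 0 < ε ∧ C * ε ^ 3 ≤ 1 / 4 := by
    refine ⟨1 / (4 * (C + 1)), ?_, ?_⟩
    · have := C_nonneg
      positivity
    · have hC := C_nonneg
      have h1 : 1 / (4 * (C + 1)) ≤ 1 := by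
        rw [div_le_one (by positivity)]
        linarith
      have h0 : 0 ≤ 1 / (4 * (C + 1)) := by positivity
      calc C * (1 / (4 * (C + 1))) ^ 3 ≤ C * (1 / (4 * (C + 1))) := by
            gcongr
            exact pow_le_of_le_one h0 h1 (by norm_num)
        _ ≤ 1 / 4 := by
            rw [mul_one_div, div_le_div_iff₀ (by positivity) (by norm_num)]
            linarith
  obtain ⟨N₀, hN₀⟩ := h ε hε
  -- for all x: x ≤ N₀ + |E ∩ [1,x]| + x/4
  have key : ∀ x : ℕ, (x : ℝ) ≤ N₀ + ((E ∩ Set.Icc 1 x).ncard : ℝ) + 1 / 4 * x := by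
    intro x
    have hcov : Set.Icc 1 x ⊆ (Set.Icc 1 N₀ ∪ (E ∩ Set.Icc 1 x)) ∪
        ((Set.Icc 1 x) ∩ {N : ℕ | ∃ n : ℕ, N ∈ initialSums n ∧ (n : ℝ) ≤ ε * N}) := by
      intro N hN
      by_cases h1 : N ≤ N₀
      · exact Or.inl (Or.inl ⟨hN.1, h1⟩)
      by_cases h2 : N ∈ E
      · exact Or.inl (Or.inr ⟨h2, hN⟩)
      refine Or.inr ⟨hN, f N, ?_, (hN₀ N (by omega) h2).2⟩
      have hrep := (hN₀ N (by omega) h2).1
      exact Nat.sInf_mem hrep
    have hfin : ((Set.Icc 1 N₀ ∪ (E ∩ Set.Icc 1 x)) ∪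
        ((Set.Icc 1 x) ∩ {N : ℕ | ∃ n : ℕ, N ∈ initialSums n ∧ (n : ℝ) ≤ ε * N})).Finite :=
      ((Set.finite_Icc _ _).union ((Set.finite_Icc 1 x).subset Set.inter_subset_right)).union
        ((Set.finite_Icc 1 x).subset Set.inter_subset_left)
    have h1 := Set.ncard_le_ncard hcov hfin
    have h2 := h1.trans (Set.ncard_union_le _ _)
    have h3 := h2.trans (Nat.add_le_add_right (Set.ncard_union_le _ _) _)
    have hc : ∀ y : ℕ, (Set.Icc 1 y).ncard = y := by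
      intro y
      rw [← Finset.coe_Icc, Set.ncard_coe_finset, Nat.card_Icc, Nat.add_sub_cancel]
    rw [hc, hc] at h3
    have h4 : (x : ℝ) ≤ N₀ + ((E ∩ Set.Icc 1 x).ncard : ℝ) +
        (((Set.Icc 1 x) ∩
          {N : ℕ | ∃ n : ℕ, N ∈ initialSums n ∧ (n : ℝ) ≤ ε * N}).ncard : ℝ) := by
      exact_mod_cast h3
    have h5 := card_le hε x
    have h6 : C * ε ^ 3 * x ≤ 1 / 4 * x := by gcongr
    linarith
  -- contradiction with density zero
  have hev : ∀ᶠ x : ℕ in atTop, ((E ∩ Set.Icc 1 x).ncard : ℝ) / x < 1 / 4 :=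
    hE.eventually (gt_mem_nhds (by norm_num))
  obtain ⟨x, hx1, hx2⟩ := (hev.and (eventually_ge_atTop (2 * N₀ + 1))).exists
  have hx0 : (0 : ℝ) < x := by
    have : 0 < x := by omega
    exact_mod_cast this
  rw [div_lt_iff₀ hx0] at hx1
  have hk := key x
  have hxN : (2 * N₀ + 1 : ℝ) ≤ x := by exact_mod_cast hx2
  linarith

end Pool.Agent.Results.MP_d49c4f_nt.AlmostAllFails
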